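import Pool.Agent.H55.OC.KerDefs
import Pool.Agent.H87.OC.Cost

/-!
# OC, row SPRB, piece E: the entropy of the free part of the cells
-/

set_option autoImplicit false

namespace Pool.OC

open Finset Real
open Pool.Agent.H49.Ent Pool.Agent.H32.Dense Pool.STK Pool.KAF Pool.OCT

namespace SprbE

variable {d : Dat}

theorem Qp0_law (hp : IsLaw d.P) : IsLaw (d.Qp 0) :=
  addT_isLaw (c := fun τ => ⌊(2 : ℝ) ^ 0 * d.th τ⌋) (t := d.T) (lam := d.L) hp hp marg_id

theorem Qp0_fst (hp : IsLaw d.P) : Marg (d.Qp 0) d.P (fun w => w.1) := by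
  unfold Dat.Qp dbl
  exact marg_fst hp.nonneg (fun _ => rfl)

theorem Qp0_snd (hp : IsLaw d.P) : Marg (d.Qp 0) d.P (fun w => w.2) := by
  unfold Dat.Qp dbl
  exact marg_snd hp.nonneg (fun _ => rfl)

theorem Qp0_pos (hp : IsLaw d.P) {w : d.Om × d.Om} (h : 0 < d.Qp 0 w) :
    0 < d.P w.1 ∧ 0 < d.P w.2 ∧ d.L w.1 = d.L w.2 := by
  unfold Dat.Qp dbl at h
  obtain ⟨h1, h2, h3⟩ := (glue_pos_iff hp.nonneg hp.nonneg w).mp h
  exact ⟨h1, h2, (Prod.ext_iff.mp h3).1⟩

/-- The information of the two times on the line. -/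
theorem cost (hp : IsLaw d.P) {e : ℝ} (h : Pool.KVA.MI d.P d.T d.L (fun _ => ()) ≤ e) :
    Pool.KVA.MI (d.Qp 0) (fun w => d.L w.1) (fun w => (d.T w.1, d.T w.2)) (fun _ => ()) ≤
      2 * e := by
  rw [mi_comm _ _ _ hp.nonneg] at h
  exact cost_pair hp d.L d.T (fun τ => ⌊(2 : ℝ) ^ 0 * d.th τ⌋) e h

theorem ta_lt {A : ℕ} (h : d.OK A) (w : d.Om × d.Om) : |d.ta w| < 1 := by
  have h1 := h.hth (d.T w.1)
  have h2 := h.hth (d.T w.2)
  unfold Dat.ta
  rw [abs_lt]
  constructor <;> linarith [h1.1, h1.2, h2.1, h2.2]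

theorem sc_nonneg {x : ℝ} (h : |x| < 1) : 0 ≤ sc x := by
  unfold sc
  rcases (abs_nonneg x).eq_or_lt with h0 | h0
  · rw [← h0, Int.log_of_right_le_zero _ le_rfl]
    simp
  · have h1 : Int.log 2 |x| < 0 := by
      rw [← Int.lt_zpow_iff_log_lt (by norm_num) h0]
      simpa using h
    linarith

theorem sc_le {x : ℝ} {k : ℕ} (h : (2 : ℝ) ^ (-(k : ℤ)) ≤ |x|) : sc x ≤ k := by
  unfold sc
  have h0 : 0 < |x| := lt_of_lt_of_le (by positivity) h
  have h1 : -(k : ℤ) ≤ Int.log 2 |x| := by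
    rw [← Int.zpow_le_iff_le_log (by norm_num) h0]
    exact_mod_cast h
  linarith

theorem log_le_pow {x : ℝ} (hx : 0 < x) {k : ℕ} (h : x ≤ 2 ^ k) : Real.log x ≤ k * Real.log 2 := by
  rw [← Real.log_pow]
  exact Real.log_le_log hx h

theorem pr_ex {Ω : Type} [Fintype Ω] (p : Ω → ℝ) (E : Set Ω) [DecidablePred (· ∈ E)] (c : ℝ) :
    Ex p (fun ω => if ω ∈ E then c else 0) = Pr p E * c := by
  rw [Pool.KAF.Pr_eq]
  unfold Ex
  rw [Finset.sum_mul]
  refine Finset.sum_congr rfl fun ω _ => ?_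
  by_cases h : ω ∈ E
  · simp only [if_pos h]
  · simp only [if_neg h]
    ring

end SprbE

open SprbE in
theorem sprb_e : SPRB_E := by
  classical
  intro A
  refine ⟨2 * (A + 60), by positivity, ?_⟩
  intro d m n s₀ s₁ ε ca hd hm1 hm2 hn hs0 hs1 hs1X hnX hε hTA hH1 hH3 hH4
  have hp := hd.law
  have hq := Qp0_law hp
  have hq0 := hq.nonneg
  have hl2 : 0 < Real.log 2 := Real.log_pos (by norm_num)
  have hl21 : Real.log 2 ≤ 1 := by
    have := Real.log_two_lt_d9
    linarith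
  have hf := Qp0_fst hp
  obtain ⟨x0, hx0⟩ : ∃ x0, x0 = d.x0 m := ⟨_, rfl⟩
  obtain ⟨B0, hB0⟩ : ∃ B, B = cF (d.x0 m) d.y1 d.omT s₀ := ⟨_, rfl⟩
  obtain ⟨B1, hB1⟩ : ∃ B, B = cF (d.x0 m) d.y1 d.omT s₁ := ⟨_, rfl⟩
  obtain ⟨O, hO⟩ : ∃ O : d.Om × d.Om → ℤ, O = fun w => d.om (d.L w.1) := ⟨_, rfl⟩
  obtain ⟨Y, hY⟩ : ∃ Y : d.Om × d.Om → ℤ, Y = fun w => d.y (d.L w.1) := ⟨_, rfl⟩
  have hAr : (0 : ℝ) ≤ A := Nat.cast_nonneg A
  have hXr : (64 : ℝ) * n ≤ d.X := by exact_mod_cast hnX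
  have hnr : (1 : ℝ) ≤ n := by exact_mod_cast hn
  -- bounds on the support
  have hyb : ∀ w, 0 < d.Qp 0 w → |d.y1 w| ≤ 2 ^ (A + 1) := by
    intro w hw
    obtain ⟨h1, h2, h3⟩ := Qp0_pos hp hw
    have a1 := hd.hy w.1 h1
    have a2 := hd.hom w.1 h1
    have a3 := hd.hth (d.T w.1)
    unfold Dat.y1
    refine (abs_add_le _ _).trans ?_
    rw [abs_mul, abs_of_nonneg a3.1, pow_succ]
    have a4 : d.th (d.T w.1) * |d.omR (d.L w.1)| ≤ 1 * 2 ^ A :=
      mul_le_mul a3.2.le a2 (abs_nonneg _) zero_le_one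
    linarith
  have hscn : ∀ w, 0 ≤ sc (d.ta w) := fun w => sc_nonneg (ta_lt hd w)
  have hob : ∀ w, 0 < d.Qp 0 w → |d.omT w| ≤ 2 ^ A := by
    intro w hw
    obtain ⟨h1, h2, h3⟩ := Qp0_pos hp hw
    have a2 := hd.hom w.1 h1
    unfold Dat.omT
    rw [abs_mul, abs_of_pos (by positivity : (0 : ℝ) < 2 ^ (-sc (d.ta w)))]
    have a4 : (2 : ℝ) ^ (-sc (d.ta w)) ≤ 1 :=
      zpow_le_one_of_nonpos₀ (by norm_num) (by linarith [hscn w])
    calc _ ≤ 1 * (2 : ℝ) ^ A := mul_le_mul a4 a2 (abs_nonneg _) zero_le_one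
      _ = 2 ^ A := one_mul _
  -- the start
  have hstart : CH (d.Qp 0) B0 x0 ≤ (2 * s₀ + 2 * A + 10) * Real.log 2 := by
    have g0 : CH (d.Qp 0) B0 x0 ≤
        CH (d.Qp 0) (fun w => (fl (2 ^ s₀) d.y1 w, fl (2 ^ s₀) d.omT w)) x0 := by
      refine CH_mono_left hq0 ?_
      intro w w' _ _ hw
      simp only [Prod.mk.injEq] at hw
      rw [hB0]
      unfold cF
      rw [hw.1.1, hw.1.2, ← hx0, hw.2]
    have g1 := CH_subadd hq0 (fl (2 ^ s₀) d.y1) (fl (2 ^ s₀) d.omT) x0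
    have g2 := CH_le_int hq0 hq.sum_one (fl (2 ^ s₀) d.y1) x0 (fun _ => 2 ^ (s₀ + A + 2) + 1)
      (fun w w' hw hw' _ => by
        refine fl_diff (by positivity) d.y1 ?_
        have h4 := hyb w hw
        have h5 := hyb w' hw'
        refine (abs_sub _ _).trans ?_
        have e1 : (2 : ℝ) ^ (s₀ + A + 2) / 2 ^ s₀ = 2 ^ (A + 1) + 2 ^ (A + 1) := by
          rw [add_assoc, pow_add]
          field_simp
          ring
        rw [e1]
        linarith)
    have g3 := CH_le_int hq0 hq.sum_one (fl (2 ^ s₀) d.omT) x0 (fun _ => 2 ^ (s₀ + A + 1) + 1)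
      (fun w w' hw hw' _ => by
        refine fl_diff (by positivity) d.omT ?_
        have h4 := hob w hw
        have h5 := hob w' hw'
        refine (abs_sub _ _).trans ?_
        have e1 : (2 : ℝ) ^ (s₀ + A + 1) / 2 ^ s₀ = 2 ^ A + 2 ^ A := by
          rw [add_assoc, pow_add]
          field_simp
          ring
        rw [e1]
        linarith)
    rw [Ex_const hq.sum_one] at g2 g3
    have f1 : Real.log (2 * (2 ^ (s₀ + A + 2) + 1) + 1) ≤ (s₀ + A + 5 : ℕ) * Real.log 2 := by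
      refine log_le_pow (by positivity) ?_
      have e1 : (2 : ℝ) ^ (s₀ + A + 5) = 8 * 2 ^ (s₀ + A + 2) := by
        rw [show s₀ + A + 5 = (s₀ + A + 2) + 3 by ring, pow_add]
        norm_num
        ring
      have e2 : (1 : ℝ) ≤ 2 ^ (s₀ + A + 2) := one_le_pow₀ (by norm_num)
      rw [e1]
      linarith
    have f2 : Real.log (2 * (2 ^ (s₀ + A + 1) + 1) + 1) ≤ (s₀ + A + 5 : ℕ) * Real.log 2 := by
      refine log_le_pow (by positivity) ?_
      have e1 : (2 : ℝ) ^ (s₀ + A + 5) = 16 * 2 ^ (s₀ + A + 1) := by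
        rw [show s₀ + A + 5 = (s₀ + A + 1) + 4 by ring, pow_add]
        norm_num
        ring
      have e2 : (1 : ℝ) ≤ 2 ^ (s₀ + A + 1) := one_le_pow₀ (by norm_num)
      rw [e1]
      linarith
    push_cast at f1 f2
    linarith
  -- the remaining digits of the velocity
  have hI : (2 : ℝ) ^ d.X = 2 ^ (d.X - s₁) * 2 ^ s₁ := by
    rw [← pow_add, Nat.sub_add_cancel hs1X]
  obtain ⟨E, hE⟩ : ∃ E : Set (d.Om × d.Om), E = {w | |d.ta w| < (2 : ℝ) ^ (-((n / 4 : ℕ) : ℤ))} :=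
    ⟨_, rfl⟩
  have hPE : Pr (d.Qp 0) E ≤ ε := by
    rw [hE]
    exact hTA 0 (n / 4) (by omega) (by omega)
  have hvel : CH (d.Qp 0) O B1 ≤ (((d.X - s₁ + n / 4 + 2 : ℕ) : ℝ)) * Real.log 2 +
      ε * (((A + d.X + 3 : ℕ) : ℝ) * Real.log 2) := by
    have g1 := CH_le_int hq0 hq.sum_one O B1
      (fun w => if w ∈ E then 2 ^ (A + d.X + 1) else 2 ^ (d.X - s₁ + n / 4)) (by
        intro w w' hw hw' hB
        have hx : x0 w = x0 w' := by
          rw [hx0]
          rw [hB1] at hB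
          exact (Prod.ext_iff.mp hB).1
        have ht : d.ta w = d.ta w' := by
          rw [hx0] at hx
          have h1 := (Prod.ext_iff.mp hx).1
          have h2 := (Prod.ext_iff.mp (Prod.ext_iff.mp hx).2).1
          simp only [Dat.x0] at h1 h2
          unfold Dat.ta
          rw [h1, h2]
        obtain ⟨h1, h2, h3⟩ := Qp0_pos hp hw
        obtain ⟨h1', h2', h3'⟩ := Qp0_pos hp hw'
        have o1 := hd.hom w.1 h1
        have o2 := hd.hom w'.1 h1'
        have hXp : (0 : ℝ) < 2 ^ d.X := by positivity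
        have e1 : ((O w - O w' : ℤ) : ℝ) = 2 ^ d.X * (d.omR (d.L w.1) - d.omR (d.L w'.1)) := by
          rw [hO]
          unfold Dat.omR
          push_cast
          field_simp
        rw [e1, abs_mul, abs_of_pos hXp]
        split_ifs with hw1
        · have e2 : (2 : ℝ) ^ (A + d.X + 1) = 2 ^ d.X * (2 ^ A + 2 ^ A) := by
            rw [pow_succ, pow_add]
            ring
          rw [e2]
          refine mul_le_mul_of_nonneg_left ((abs_sub _ _).trans ?_) hXp.le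
          linarith
        · have hw2 : (2 : ℝ) ^ (-((n / 4 : ℕ) : ℤ)) ≤ |d.ta w| := by
            rw [hE] at hw1
            exact not_lt.1 hw1
          have h4 := sc_le hw2
          have h5 : fl (2 ^ s₁) d.omT w = fl (2 ^ s₁) d.omT w' := by
            rw [hB1] at hB
            exact (Prod.ext_iff.mp (Prod.ext_iff.mp hB).2).2
          have h6 := fl_cell (by positivity) d.omT h5
          have e3 : d.omT w - d.omT w' = (2 : ℝ) ^ (-sc (d.ta w)) *
              (d.omR (d.L w.1) - d.omR (d.L w'.1)) := by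
            unfold Dat.omT
            rw [← ht]
            ring
          rw [e3, abs_mul, abs_of_pos (by positivity : (0 : ℝ) < 2 ^ (-sc (d.ta w)))] at h6
          have h7 : (2 : ℝ) ^ (-((n / 4 : ℕ) : ℤ)) ≤ 2 ^ (-sc (d.ta w)) :=
            zpow_le_zpow_right₀ (by norm_num) (by linarith)
          have h8 : (2 : ℝ) ^ (-((n / 4 : ℕ) : ℤ)) * |d.omR (d.L w.1) - d.omR (d.L w'.1)| ≤
              1 / 2 ^ s₁ := (mul_le_mul_of_nonneg_right h7 (abs_nonneg _)).trans h6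
          rw [zpow_neg, zpow_natCast, inv_mul_le_iff₀ (by positivity)] at h8
          calc (2 : ℝ) ^ d.X * |d.omR (d.L w.1) - d.omR (d.L w'.1)| ≤
              2 ^ d.X * (2 ^ (n / 4) * (1 / 2 ^ s₁)) := mul_le_mul_of_nonneg_left h8 hXp.le
            _ = 2 ^ (d.X - s₁ + n / 4) := by
              rw [hI, pow_add]
              field_simp)
    refine g1.trans ?_
    have g2 : Ex (d.Qp 0) (fun w => Real.log (2 * (if w ∈ E then (2 : ℝ) ^ (A + d.X + 1) else
        2 ^ (d.X - s₁ + n / 4)) + 1)) ≤ Ex (d.Qp 0) (fun w =>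
        (((d.X - s₁ + n / 4 + 2 : ℕ) : ℝ)) * Real.log 2 +
          (if w ∈ E then ((A + d.X + 3 : ℕ) : ℝ) * Real.log 2 else 0)) := by
      refine Ex_mono hq0 fun w hw => ?_
      by_cases hw1 : w ∈ E
      · rw [if_pos hw1, if_pos hw1]
        have h1 : Real.log (2 * (2 : ℝ) ^ (A + d.X + 1) + 1) ≤
            ((A + d.X + 3 : ℕ) : ℝ) * Real.log 2 := by
          refine log_le_pow (by positivity) ?_
          have e1 : (2 : ℝ) ^ (A + d.X + 3) = 4 * 2 ^ (A + d.X + 1) := by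
            rw [show A + d.X + 3 = (A + d.X + 1) + 2 by ring, pow_add]
            norm_num
            ring
          have e2 : (1 : ℝ) ≤ 2 ^ (A + d.X + 1) := one_le_pow₀ (by norm_num)
          rw [e1]
          linarith
        have h2 : 0 ≤ (((d.X - s₁ + n / 4 + 2 : ℕ) : ℝ)) * Real.log 2 := by positivity
        linarith
      · rw [if_neg hw1, if_neg hw1, add_zero]
        refine log_le_pow (by positivity) ?_
        have e1 : (2 : ℝ) ^ (d.X - s₁ + n / 4 + 2) = 4 * 2 ^ (d.X - s₁ + n / 4) := by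
          rw [pow_add _ (d.X - s₁ + n / 4) 2]
          norm_num
          ring
        have e2 : (1 : ℝ) ≤ 2 ^ (d.X - s₁ + n / 4) := one_le_pow₀ (by norm_num)
        rw [e1]
        linarith
    refine g2.trans ?_
    rw [Ex_add, Ex_const hq.sum_one, pr_ex]
    have h3 : Pr (d.Qp 0) E * (((A + d.X + 3 : ℕ) : ℝ) * Real.log 2) ≤
        ε * (((A + d.X + 3 : ℕ) : ℝ) * Real.log 2) :=
      mul_le_mul_of_nonneg_right hPE (by positivity)
    linarith
  -- the remaining digits of the position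
  have hpos : CH (d.Qp 0) Y (fun w => (O w, B1 w)) ≤
      ((d.X - s₁ + 2 : ℕ) : ℝ) * Real.log 2 := by
    have g1 := CH_le_int hq0 hq.sum_one Y (fun w => (O w, B1 w)) (fun _ => 2 ^ (d.X - s₁)) (by
      intro w w' hw hw' hB
      have hB2 : B1 w = B1 w' := (Prod.ext_iff.mp hB).2
      have hOO : O w = O w' := (Prod.ext_iff.mp hB).1
      rw [hB1] at hB2
      have hx : d.x0 m w = d.x0 m w' := (Prod.ext_iff.mp hB2).1
      have hT : d.T w.1 = d.T w'.1 := (Prod.ext_iff.mp hx).1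
      have h5 : fl (2 ^ s₁) d.y1 w = fl (2 ^ s₁) d.y1 w' :=
        (Prod.ext_iff.mp (Prod.ext_iff.mp hB2).2).1
      have h6 := fl_cell (by positivity) d.y1 h5
      have hom : d.omR (d.L w.1) = d.omR (d.L w'.1) := by
        unfold Dat.omR
        rw [hO] at hOO
        simp only at hOO
        rw [hOO]
      have e3 : d.y1 w - d.y1 w' = d.yR (d.L w.1) - d.yR (d.L w'.1) := by
        unfold Dat.y1
        rw [hT, hom]
        ring
      rw [e3] at h6
      have hXp : (0 : ℝ) < 2 ^ d.X := by positivity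
      have e1 : ((Y w - Y w' : ℤ) : ℝ) = 2 ^ d.X * (d.yR (d.L w.1) - d.yR (d.L w'.1)) := by
        rw [hY]
        unfold Dat.yR
        push_cast
        field_simp
      rw [e1, abs_mul, abs_of_pos hXp]
      calc (2 : ℝ) ^ d.X * |d.yR (d.L w.1) - d.yR (d.L w'.1)| ≤ 2 ^ d.X * (1 / 2 ^ s₁) :=
            mul_le_mul_of_nonneg_left h6 hXp.le
        _ = 2 ^ (d.X - s₁) := by
          rw [hI]
          field_simp)
    rw [Ex_const hq.sum_one] at g1
    refine g1.trans (log_le_pow (by positivity) ?_)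
    have e1 : (2 : ℝ) ^ (d.X - s₁ + 2) = 4 * 2 ^ (d.X - s₁) := by
      rw [pow_add]
      norm_num
      ring
    have e2 : (1 : ℝ) ≤ 2 ^ (d.X - s₁) := one_le_pow₀ (by norm_num)
    rw [e1]
    linarith
  -- the entropy of the line data
  have hdata : ca * d.X * Real.log 2 + (1 - ε) * d.X * Real.log 2 ≤
      H (d.Qp 0) (fun w => (Y w, O w)) := by
    have h1 : H (d.Qp 0) (fun w => (Y w, O w)) =
        H d.P (fun ω => (d.y (d.L ω), d.om (d.L ω))) := by
      rw [hO, hY]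
      exact hf.H (fun ω => (d.y (d.L ω), d.om (d.L ω)))
    have h2 : CH d.P (fun ω => d.y (d.L ω)) (fun ω => d.om (d.L ω)) =
        H d.P (fun ω => (d.y (d.L ω), d.om (d.L ω))) - H d.P (fun ω => d.om (d.L ω)) := rfl
    unfold Dat.H3 at hH3
    unfold Dat.H4 at hH4
    rw [h1]
    linarith
  -- the times carry no information
  have hm : H (d.Qp 0) (fun w => m (d.L w.1)) ≤ 6 * n := by
    have h1 := H_le_log_card hq0 hq.sum_one (fun w => m (d.L w.1))
      (Finset.Icc (-(4 * n : ℤ)) (2 * n)) (fun w _ => Finset.mem_Icc.2 ⟨hm1 _, hm2 _⟩)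
    rw [Int.card_Icc] at h1
    have e1 : (2 * (n : ℤ) + 1 - -(4 * (n : ℤ))).toNat = 6 * n + 1 := by omega
    rw [e1] at h1
    have h2 := Real.log_le_sub_one_of_pos (x := ((6 * n + 1 : ℕ) : ℝ)) (by positivity)
    push_cast at h1 h2
    linarith
  have hinfo : H (d.Qp 0) (fun w => (Y w, O w)) - 2 * (ε * d.X) - 6 * n ≤
      CH (d.Qp 0) (fun w => (Y w, O w)) x0 := by
    have h1 := cost hp hH1.1
    have h2 : Pool.KVA.MI (d.Qp 0) (fun w => (Y w, O w)) (fun w => (d.T w.1, d.T w.2))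
        (fun _ => ()) ≤ 2 * (ε * d.X) := by
      refine (mi_mono_left hq0 (fun w => d.L w.1) _ _ _ ?_).trans h1
      intro w w' _ _ h
      have h3 : d.L w.1 = d.L w'.1 := (Prod.ext_iff.mp h).1
      rw [hO, hY]
      simp only [h3]
    rw [CLU.MI_eq hq0] at h2
    have h3 : CH (d.Qp 0) (fun w => (Y w, O w)) (fun _ => ()) =
        H (d.Qp 0) (fun w => (Y w, O w)) := by
      unfold CH
      rw [H_const hq.sum_one, sub_zero]
      refine H_congr hq0 ?_ ?_
      · intro w w' _ _ h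
        exact Prod.ext h rfl
      · intro w w' _ _ h
        exact (Prod.ext_iff.mp h).1
    have h4 := CH_mono_cond hq0 (X := fun w => (Y w, O w))
      (W' := fun w => (m (d.L w.1), (d.T w.1, d.T w.2))) (W := x0) (by
        intro w w' _ _ h
        simp only [Prod.mk.injEq] at h
        rw [hx0]
        unfold Dat.x0
        rw [h.1, h.2.1, h.2.2])
    have h5 := CH_le_add hq0 (fun w => (Y w, O w)) (fun w => m (d.L w.1))
      (fun w => (d.T w.1, d.T w.2))
    have h6 := ch_le_H hq (fun w => m (d.L w.1)) (fun w => (d.T w.1, d.T w.2))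
    have h7 := CH_mono_cond hq0 (X := fun w => (Y w, O w))
      (W' := fun w => ((d.T w.1, d.T w.2), ())) (W := fun w => (d.T w.1, d.T w.2)) (by
        intro w w' _ _ h
        exact (Prod.ext_iff.mp h).1)
    linarith
  -- the end
  have k1 := CH_le_add hq0 B1 B0 x0
  have k2 := CH_mono_cond hq0 (X := B1) (W' := fun w => (B0 w, x0 w)) (W := B0)
    (fun w w' _ _ h => (Prod.ext_iff.mp h).1)
  have k3 := CH_le_add hq0 (fun w => (Y w, O w)) B1 x0
  have k4 := CH_mono_cond hq0 (X := fun w => (Y w, O w)) (W' := fun w => (B1 w, x0 w)) (W := B1)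
    (fun w w' _ _ h => (Prod.ext_iff.mp h).1)
  have k5 := CH_chain hq0 Y O B1
  rw [← hB0, ← hB1]
  have n1 : ((d.X - s₁ + n / 4 + 2 : ℕ) : ℝ) ≤ 10 * n + 2 := by
    have : d.X - s₁ + n / 4 + 2 ≤ 10 * n + 2 := by omega
    exact_mod_cast this
  have n2 : ((d.X - s₁ + 2 : ℕ) : ℝ) ≤ 9 * n + 2 := by
    have : d.X - s₁ + 2 ≤ 9 * n + 2 := by omega
    exact_mod_cast this
  have n3 : (s₀ : ℝ) ≤ 9 * n := by exact_mod_cast hs0
  have m1 := mul_le_mul_of_nonneg_right n1 hl2.le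
  have m2 := mul_le_mul_of_nonneg_right n2 hl2.le
  have m3 := mul_le_mul_of_nonneg_right (show 2 * (s₀ : ℝ) + 2 * A + 10 ≤
    18 * n + 2 * A + 10 by linarith) hl2.le
  have m4 : ((10 * n + 2 : ℝ) + (9 * n + 2) + (18 * n + 2 * A + 10)) * Real.log 2 ≤
      ((10 * n + 2 : ℝ) + (9 * n + 2) + (18 * n + 2 * A + 10)) * 1 :=
    mul_le_mul_of_nonneg_left hl21 (by positivity)
  have hX1 : (1 : ℝ) ≤ d.X := by linarith
  have hεX : 0 ≤ ε * d.X := by positivity
  have m5 : ε * (((A + d.X + 3 : ℕ) : ℝ) * Real.log 2) ≤ ε * d.X * (A + 4) := by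
    have h1 : ((A + d.X + 3 : ℕ) : ℝ) * Real.log 2 ≤ d.X * (A + 4) := by
      push_cast
      have h2 : ((A : ℝ) + d.X + 3) * Real.log 2 ≤ ((A : ℝ) + d.X + 3) * 1 :=
        mul_le_mul_of_nonneg_left hl21 (by positivity)
      have h3 : (A : ℝ) + 3 ≤ d.X * (A + 3) := by
        have : 0 ≤ ((d.X : ℝ) - 1) * (A + 3) := mul_nonneg (by linarith) (by linarith)
        linarith
      linarith
    rw [mul_assoc]
    exact mul_le_mul_of_nonneg_left h1 hε
  have m6 : ε * d.X * Real.log 2 ≤ ε * d.X * 1 := mul_le_mul_of_nonneg_left hl21 hεX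
  have m7 : 0 ≤ (A : ℝ) * n := by positivity
  have m8 : 0 ≤ (A : ℝ) * (ε * d.X) := by positivity
  have e1 : (1 + ca) * d.X * Real.log 2 = ca * d.X * Real.log 2 + (1 - ε) * d.X * Real.log 2 +
    ε * d.X * Real.log 2 := by ring
  have e2 : (2 * ((A : ℝ) + 60)) * (n + ε * d.X + 1) = 2 * (A * n) + 120 * n +
    2 * (A * (ε * d.X)) + 120 * (ε * d.X) + 2 * A + 120 := by ring
  have e3 : ε * d.X * ((A : ℝ) + 4) = A * (ε * d.X) + 4 * (ε * d.X) := by ring
  rw [e1, e2]
  rw [e3] at m5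
  have e4 : ((10 * n + 2 : ℝ) + (9 * n + 2) + (18 * n + 2 * A + 10)) * Real.log 2 =
    (10 * n + 2) * Real.log 2 + (9 * n + 2) * Real.log 2 +
      (18 * n + 2 * A + 10) * Real.log 2 := by ring
  rw [e4] at m4
  linarith

end Pool.OC
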